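import Pool.Agent.N395.AS.NU

set_option autoImplicit false

/-!
# Project AS: the part where the kernel of the folding map acts trivially (unitary matrices)
-/

namespace Pool.Agent.N395.AS

open Finset Matrix Filter Topology
open Pool.Agent.H698R3.Amalg (fro fn fn_sq fn_nonneg fn_add_le uh_mul mul_uh fro_mul_right
  fro_mul_left fro_neg fro_eq_re fro_nonneg HilbertSchmidtStable mkRep mkRep_coe rep_mul rep_one
  rep_inv)
open Pool.Agent.N139.AS

theorem fro_conj {k d : ℕ} (J : Matrix (Fin d) (Fin k) ℂ) (hJ : Jᴴ * J = 1) (A : Mt k) :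
    fro (J * A * Jᴴ) = fro A := by
  rw [fro_mul_right Jᴴ (by rw [conjTranspose_conjTranspose]; exact hJ), fro_mul_left J hJ]

theorem fro_add2 {X Y : Type} [Fintype X] [Fintype Y] (A B : Matrix X Y ℂ) (r : ℝ)
    (hA : fro A ≤ r) (hB : fro B ≤ r) : fro (A + B) ≤ 4 * r := by
  have h1 := fn_add_le A B
  have h2 := fn_nonneg A
  have h3 := fn_nonneg B
  have h4 := fn_nonneg (A + B)
  rw [← fn_sq] at hA hB ⊢
  nlinarith [sq_nonneg (fn A - fn B)]

theorem fro_add3 {X Y : Type} [Fintype X] [Fintype Y] (A B C : Matrix X Y ℂ) :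
    fro (A + B + C) ≤ 3 * (fro A + fro B + fro C) := by
  have h1 := fn_add_le (A + B) C
  have h1' := fn_add_le A B
  have h2 := fn_nonneg A
  have h3 := fn_nonneg B
  have h5 := fn_nonneg C
  have h4 := fn_nonneg (A + B + C)
  rw [← fn_sq, ← fn_sq, ← fn_sq, ← fn_sq]
  have h6 : fn (A + B + C) ≤ fn A + fn B + fn C := by linarith
  have h7 : fn (A + B + C) ^ 2 ≤ (fn A + fn B + fn C) ^ 2 := pow_le_pow_left₀ h4 h6 2
  nlinarith [sq_nonneg (fn A - fn B), sq_nonneg (fn A - fn C), sq_nonneg (fn B - fn C)]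

/-- extension by the identity -/
noncomputable def ext {Γ : Type} [Group Γ] {k d : ℕ} (J : Matrix (Fin d) (Fin k) ℂ)
    (hJ : Jᴴ * J = 1) (θ : Γ →* UU k) : Γ →* UU d :=
  mkRep (fun g => J * (θ g).1 * Jᴴ + (1 - J * Jᴴ))
    (by
      rw [rep_one, Matrix.mul_one]
      abel)
    (by
      intro g h
      have h1 : Jᴴ * (1 - J * Jᴴ) = 0 := by
        rw [Matrix.mul_sub, ← Matrix.mul_assoc, hJ, Matrix.one_mul, Matrix.mul_one, sub_self]
      have h2 : (1 - J * Jᴴ) * J = 0 := by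
        rw [Matrix.sub_mul, Matrix.mul_assoc, hJ, Matrix.one_mul, Matrix.mul_one, sub_self]
      have h3 : (1 - J * Jᴴ) * (1 - J * Jᴴ) = 1 - J * Jᴴ := by
        rw [Matrix.mul_sub, Matrix.mul_one, ← Matrix.mul_assoc, h2, Matrix.zero_mul, sub_zero]
      rw [rep_mul, Matrix.add_mul, Matrix.mul_add, Matrix.mul_add, h3]
      have h4 : J * (θ g).1 * Jᴴ * (J * (θ h).1 * Jᴴ) = J * ((θ g).1 * (θ h).1) * Jᴴ := by
        have : J * (θ g).1 * Jᴴ * (J * (θ h).1 * Jᴴ) =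
          J * (θ g).1 * (Jᴴ * J) * (θ h).1 * Jᴴ := by simp only [Matrix.mul_assoc]
        rw [this, hJ, Matrix.mul_one]
        simp only [Matrix.mul_assoc]
      have h5 : J * (θ g).1 * Jᴴ * (1 - J * Jᴴ) = 0 := by
        rw [Matrix.mul_assoc, h1, Matrix.mul_zero]
      have h6 : (1 - J * Jᴴ) * (J * (θ h).1 * Jᴴ) = 0 := by
        rw [← Matrix.mul_assoc, ← Matrix.mul_assoc, h2, Matrix.zero_mul, Matrix.zero_mul]
      rw [h4, h5, h6, add_zero, zero_add])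
    (by
      intro g
      rw [rep_inv, conjTranspose_add, conjTranspose_sub, conjTranspose_one, conjTranspose_mul,
        conjTranspose_mul, conjTranspose_mul, conjTranspose_conjTranspose, Matrix.mul_assoc])

theorem ext_coe {Γ : Type} [Group Γ] {k d : ℕ} (J : Matrix (Fin d) (Fin k) ℂ)
    (hJ : Jᴴ * J = 1) (θ : Γ →* UU k) (g : Γ) :
    (ext J hJ θ g).1 = J * (θ g).1 * Jᴴ + (1 - J * Jᴴ) := rfl

theorem t_FINH (h : S_FIN) : S_FINH := by
  intro N _ S hS q m ε hq hε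
  set f := S.f q with hf
  -- the finite quotient
  have hfr : ∀ x ∈ f.range, x ∈ S.W (-q) 0 := by
    rintro _ ⟨n, rfl⟩
    exact hS.f_mem q n hq
  have hfid : ∀ x ∈ f.range, f x = x := fun x hx => hS.f_id q x hq (hfr x hx)
  have hff : ∀ n, f (f n) = f n := fun n => hfid _ ⟨n, rfl⟩
  have hfin : Finite f.range := by
    have := hS.fin (-q) 0
    exact Finite.of_injective (fun x : f.range => (⟨x.1, hfr x.1 x.2⟩ : S.W (-q) 0))
      (fun x y hxy => Subtype.ext (congrArg (fun z => z.1) hxy))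
  have hfs : ∀ n, f (S.σ (f n)) = f (S.σ n) := by
    intro n
    have h1 : f (n⁻¹ * f n) = 1 := by rw [map_mul, map_inv, hff, inv_mul_cancel]
    have h2 := (hS.f_ker q (n⁻¹ * f n) hq).mpr h1
    rw [map_mul, map_inv, ← hf, map_mul, map_inv, inv_mul_eq_one] at h2
    exact h2.symm
  let τ0 : f.range →* f.range := f.rangeRestrict.comp (S.σ.toMonoidHom.comp f.range.subtype)
  have hτ0 : ∀ x : f.range, (τ0 x : N) = f (S.σ x.1) := fun x => rfl
  have hτi : Function.Injective τ0 := by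
    rw [injective_iff_map_eq_one]
    intro x hx
    have h1 : f (S.σ x.1) = 1 := by rw [← hτ0, hx]; rfl
    have h2 := (hS.f_ker q x.1 hq).mp h1
    rw [← hf, hfid x.1 x.2] at h2
    exact Subtype.ext h2
  let τ : f.range ≃* f.range := MulEquiv.ofBijective τ0 (Finite.injective_iff_bijective.mp hτi)
  have hτ : ∀ x : f.range, (τ x : N) = f (S.σ x.1) := fun x => rfl
  let τ' : (⊤ : Subgroup f.range) ≃* (⊤ : Subgroup f.range) :=
    Subgroup.topEquiv.trans (τ.trans Subgroup.topEquiv.symm)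
  let Γ : Type := HNNExtension f.range ⊤ ⊤ τ'
  let of : f.range →* Γ := HNNExtension.of
  let tH : Γ := HNNExtension.t
  have hst : HilbertSchmidtStable Γ := (hnn_fin h f.range ⊤ ⊤ τ').2
  have huniv : ∀ (H : Type) [Group H] (a : f.range →* H) (s : H),
      (∀ x, s * a x = a (τ x) * s) → ∃ L : Γ →* H, L tH = s ∧ ∀ x, L (of x) = a x := by
    intro H _ a s hs
    refine ⟨HNNExtension.lift a s (fun x => hs x.1), ?_, ?_⟩
    · exact HNNExtension.lift_t _ _ _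
    · intro x
      exact HNNExtension.lift_of _ _ _ _
  have hΓ : ∀ x : f.range, tH * of x = of (τ x) * tH := by
    intro x
    exact HNNExtension.t_mul_of (φ := τ') ⟨x, Subgroup.mem_top x⟩
  obtain ⟨Φ, hΦt, hΦn⟩ := exists_lift S (of.comp f.rangeRestrict) tH (by
    intro n
    have h1 := hΓ (f.rangeRestrict n)
    have h2 : τ (f.rangeRestrict n) = f.rangeRestrict (S.σ n) := Subtype.ext (hfs n)
    rw [h2] at h1
    exact h1)
  obtain ⟨δ, hδ, hQF⟩ := QF f.range τ Γ of tH huniv hst (ε / 6) (by positivity)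
  refine ⟨max q m + 1, min (ε / 12) (δ * ε / 32), by positivity, ?_⟩
  intro w hw R hR d α t hA y hy hcomm hker hexit
  set η := min (ε / 12) (δ * ε / 32) with hη
  have hη1 : η ≤ ε / 12 := min_le_left _ _
  have hη2 : η ≤ δ * ε / 32 := min_le_right _ _
  have hqw : q + 1 ≤ w := by omega
  have hmw : m + 1 ≤ w := by omega
  have hqw' : (q : ℤ) + 1 ≤ w := by exact_mod_cast hqw
  have hmw' : (m : ℤ) + 1 ≤ w := by exact_mod_cast hmw
  have hRw' : (w : ℤ) ≤ R := by exact_mod_cast hR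
  have hq0 : (0 : ℤ) ≤ q := Int.natCast_nonneg q
  have hm0 : (0 : ℤ) ≤ m := Int.natCast_nonneg m
  have hWR : ∀ x ∈ S.W (-w) w, x ∈ S.W (-R) R := fun x hx =>
    hS.mono _ _ _ _ (by omega) (by omega) hx
  have hFw : ∀ x ∈ f.range, x ∈ S.W (-w) w := fun x hx =>
    hS.mono _ _ _ _ (by omega) (by omega) (hfr x hx)
  have hFR : ∀ x ∈ f.range, x ∈ S.W (-R) (R - 1) := fun x hx =>
    hS.mono _ _ _ _ (by omega) (by omega) (hfr x hx)
  have hσw : ∀ x ∈ f.range, S.σ x ∈ S.W (-w) w := by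
    intro x hx
    have h1 := (hS.shift (-q) 0 x).mpr (hfr x hx)
    exact hS.mono _ _ _ _ (by omega) (by omega) h1
  have hmw2 : ∀ x ∈ S.W (-m) m, x ∈ S.W (-w) w := fun x hx =>
    hS.mono _ _ _ _ (by omega) (by omega) hx
  have hα1 : α 1 = 1 := by
    have h1 := hA.mul 1 (S.W _ _).one_mem 1 (S.W _ _).one_mem
    rw [mul_one] at h1
    exact (mul_eq_left.mp h1.symm)
  have hαinv : ∀ x ∈ S.W (-w) w, (α x⁻¹).1 = ((α x).1)ᴴ := by
    intro x hx
    have h1 := hA.mul x⁻¹ ((S.W _ _).inv_mem (hWR x hx)) x (hWR x hx)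
    rw [inv_mul_cancel, hα1] at h1
    have h2 : α x⁻¹ = (α x)⁻¹ := eq_inv_of_mul_eq_one_left h1.symm
    rw [h2]
    rfl
  have hαmul : ∀ x ∈ S.W (-w) w, ∀ z ∈ S.W (-w) w, (α (x * z)).1 = (α x).1 * (α z).1 := by
    intro x hx z hz
    rw [hA.mul x (hWR x hx) z (hWR z hz)]
    rfl
  -- elements act like their folded images
  have hfold : ∀ x ∈ S.W (-w) w, (α x).1 * y = (α (f x)).1 * y := by
    intro x hx
    have h1 : f ((f x)⁻¹ * x) = 1 := by rw [map_mul, map_inv, hff, inv_mul_cancel]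
    have h2 : (f x)⁻¹ * x ∈ S.W (-w) w :=
      (S.W _ _).mul_mem ((S.W _ _).inv_mem (hFw _ ⟨x, rfl⟩)) hx
    have h3 := hker _ h2 h1
    have h4 : x = f x * ((f x)⁻¹ * x) := by group
    have h5 : (α x).1 = (α (f x)).1 * (α ((f x)⁻¹ * x)).1 := by
      rw [← hαmul _ (hFw _ ⟨x, rfl⟩) _ h2, ← h4]
    rw [h5, Matrix.mul_assoc, h3]
  obtain ⟨hyH, hyy⟩ := hy
  have hyH' : yᴴ = y := hyH
  obtain ⟨k, J, hJ, hJJ⟩ := Pool.Agent.H698R5.exists_iso y hyy hyH'
  have hyJ : y * J = J := by rw [← hJJ, Matrix.mul_assoc, hJ, Matrix.mul_one]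
  have hJy : Jᴴ * y = Jᴴ := by rw [← hJJ, ← Matrix.mul_assoc, hJ, Matrix.one_mul]
  have hcJ : ∀ x ∈ S.W (-w) w, (α x).1 * J = y * ((α x).1 * J) := by
    intro x hx
    rw [← Matrix.mul_assoc, ← (hcomm x hx).eq, Matrix.mul_assoc, hyJ]
  have hJc : ∀ x ∈ S.W (-w) w, Jᴴ * (α x).1 = Jᴴ * (α x).1 * y := by
    intro x hx
    rw [Matrix.mul_assoc, (hcomm x hx).eq, ← Matrix.mul_assoc, hJy]
  let a : f.range →* UU k := mkRep (fun x => Jᴴ * (α x.1).1 * J)
    (by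
      show Jᴴ * (α 1).1 * J = 1
      rw [hα1]
      show Jᴴ * 1 * J = 1
      rw [Matrix.mul_one, hJ])
    (by
      intro g h
      show Jᴴ * (α (g.1 * h.1)).1 * J = Jᴴ * (α g.1).1 * J * (Jᴴ * (α h.1).1 * J)
      rw [hαmul _ (hFw _ g.2) _ (hFw _ h.2)]
      have h1 : Jᴴ * (α g.1).1 * J * (Jᴴ * (α h.1).1 * J) =
          Jᴴ * (α g.1).1 * ((J * Jᴴ) * ((α h.1).1 * J)) := by simp only [Matrix.mul_assoc]
      rw [h1, hJJ, ← hcJ _ (hFw _ h.2)]
      simp only [Matrix.mul_assoc])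
    (by
      intro g
      show Jᴴ * (α (g.1)⁻¹).1 * J = (Jᴴ * (α g.1).1 * J)ᴴ
      rw [hαinv _ (hFw _ g.2), conjTranspose_mul, conjTranspose_mul, conjTranspose_conjTranspose,
        Matrix.mul_assoc])
  have ha : ∀ x : f.range, (a x).1 = Jᴴ * (α x.1).1 * J := fun x => rfl
  let c : Mt k := Jᴴ * t.1 * J
  let E : Matrix (Fin d) (Fin k) ℂ := (1 - y) * t.1 * J
  have h1y : (1 - y)ᴴ = 1 - y := by rw [conjTranspose_sub, conjTranspose_one, hyH']
  have h1yy : (1 - y) * (1 - y) = 1 - y := by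
    rw [Matrix.mul_sub, Matrix.mul_one, Matrix.sub_mul, Matrix.one_mul, hyy, sub_self, sub_zero]
  have hEE : Eᴴ * E = Jᴴ * (t.1)ᴴ * (1 - y) * t.1 * J := by
    show ((1 - y) * t.1 * J)ᴴ * ((1 - y) * t.1 * J) = _
    rw [conjTranspose_mul, conjTranspose_mul, h1y]
    have h1 : Jᴴ * ((t.1)ᴴ * (1 - y)) * ((1 - y) * t.1 * J) =
        Jᴴ * (t.1)ᴴ * ((1 - y) * (1 - y)) * t.1 * J := by simp only [Matrix.mul_assoc]
    rw [h1, h1yy]
  have hcc : cᴴ * c + Eᴴ * E = 1 := by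
    rw [hEE]
    show (Jᴴ * t.1 * J)ᴴ * (Jᴴ * t.1 * J) + _ = 1
    rw [conjTranspose_mul, conjTranspose_mul, conjTranspose_conjTranspose]
    have h1 : Jᴴ * ((t.1)ᴴ * J) * (Jᴴ * t.1 * J) = Jᴴ * (t.1)ᴴ * (J * Jᴴ) * t.1 * J := by
      simp only [Matrix.mul_assoc]
    rw [h1, hJJ, ← Matrix.add_mul, ← Matrix.add_mul, ← Matrix.mul_add, add_sub_cancel,
      Matrix.mul_one, Matrix.mul_assoc Jᴴ, uh_mul, Matrix.mul_one, hJ]
  obtain ⟨t0, ht0⟩ := near_unitary c E hcc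
  have hfE : fro E ≤ η * d := by
    refine le_trans (le_of_eq ?_) hexit
    rw [fro_eq_re, hEE]
    unfold rtr cj
    congr 1
    have h1 : (t ^ (1 : ℤ) : UU d).1 = t.1 := by rw [zpow_one]
    have h2 : (t ^ (-(1 : ℤ)) : UU d).1 = (t.1)ᴴ := by rw [_root_.zpow_neg_one]; rfl
    rw [h1, h2, Matrix.trace_mul_comm]
    have h3 : J * (Jᴴ * (t.1)ᴴ * (1 - y) * t.1) = (J * Jᴴ) * (t.1)ᴴ * (1 - y) * t.1 := by
      simp only [Matrix.mul_assoc]
    rw [h3, hJJ, Matrix.mul_sub, Matrix.mul_one, Matrix.sub_mul, Matrix.mul_assoc y, uh_mul,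
      Matrix.mul_one, Matrix.trace_sub, Matrix.mul_sub, Matrix.mul_one, Matrix.trace_sub]
    congr 1
    have h4 : y * (t.1)ᴴ * y * t.1 = (y * (t.1)ᴴ) * (y * t.1) := by simp only [Matrix.mul_assoc]
    rw [h4, Matrix.trace_mul_comm]
    simp only [Matrix.mul_assoc]
  have hrel : ∀ x : f.range, c * (a x).1 = (a (τ x)).1 * c := by
    intro x
    rw [ha, ha]
    show Jᴴ * t.1 * J * (Jᴴ * (α x.1).1 * J) = Jᴴ * (α (τ x).1).1 * J * (Jᴴ * t.1 * J)
    have hxw := hFw _ x.2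
    have hτw := hFw _ (τ x).2
    have hsw := hσw _ x.2
    have h1 : Jᴴ * t.1 * J * (Jᴴ * (α x.1).1 * J) = Jᴴ * (t.1 * (α x.1).1) * J := by
      have : Jᴴ * t.1 * J * (Jᴴ * (α x.1).1 * J) =
          Jᴴ * t.1 * ((J * Jᴴ) * ((α x.1).1 * J)) := by simp only [Matrix.mul_assoc]
      rw [this, hJJ, ← hcJ _ hxw]
      simp only [Matrix.mul_assoc]
    have h2 : t.1 * (α x.1).1 = (α (S.σ x.1)).1 * t.1 :=
      congrArg Subtype.val (hA.rel x.1 (hFR _ x.2))
    have h3 : Jᴴ * (α (S.σ x.1)).1 = Jᴴ * (α (τ x).1).1 := by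
      rw [hJc _ hsw, hJc _ hτw, Matrix.mul_assoc, hfold _ hsw, hτ, Matrix.mul_assoc]
    rw [h1, h2, ← Matrix.mul_assoc, h3]
    have h4 : Jᴴ * (α (τ x).1).1 * J * (Jᴴ * t.1 * J) =
        (Jᴴ * (α (τ x).1).1 * (J * Jᴴ)) * t.1 * J := by simp only [Matrix.mul_assoc]
    rw [h4, hJJ, ← hJc _ hτw]
  have hd0 : (0 : ℝ) ≤ d := Nat.cast_nonneg d
  have hη0 : 0 < η := by positivity
  have hrel2 : ∀ x : f.range, fro (t0.1 * (a x).1 - (a (τ x)).1 * t0.1) ≤ 4 * (η * d) := by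
    intro x
    have h1 : t0.1 * (a x).1 - (a (τ x)).1 * t0.1 =
        (t0.1 - c) * (a x).1 + (-((a (τ x)).1 * (t0.1 - c))) := by
      rw [Matrix.sub_mul, Matrix.mul_sub, hrel]
      abel
    rw [h1]
    refine fro_add2 _ _ _ ?_ ?_
    · rw [fro_mul_right _ (mul_uh (a x))]
      exact ht0.trans hfE
    · rw [fro_neg, fro_mul_left _ (uh_mul (a (τ x)))]
      exact ht0.trans hfE
  -- the rank
  have hfy : fro y = k := by
    rw [fro_eq_re, hyH', hyy, ← hJJ, Matrix.trace_mul_comm, hJ, Matrix.trace_one, Fintype.card_fin]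
    simp
  have hkd : (k : ℝ) ≤ d := by
    have h1 := fro_nonneg (1 - y)
    rw [fro_eq_re, h1y, h1yy, Matrix.trace_sub, Matrix.trace_one, Fintype.card_fin, ← hJJ,
      Matrix.trace_mul_comm, hJ, Matrix.trace_one, Fintype.card_fin] at h1
    have h2 : ((d : ℂ) - (k : ℂ)).re = (d : ℝ) - k := by simp
    rw [h2] at h1
    linarith
  have hsmall : ∀ U : UU d, fro (((1 : UU d).1 - U.1) * y) ≤ 4 * k := by
    intro U
    have h1 : ((1 : UU d).1 - U.1) * y = y + -(U.1 * y) := by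
      show ((1 : Mt d) - U.1) * y = _
      rw [Matrix.sub_mul, Matrix.one_mul]
      abel
    rw [h1]
    refine fro_add2 _ _ _ hfy.le ?_
    rw [fro_neg, fro_mul_left _ (uh_mul U), hfy]
  by_cases hk : (k : ℝ) ≤ ε / 8 * d
  · refine ⟨1, fun g => ?_, ?_, fun n _ => ?_⟩
    · show (1 : Mt d) * (1 - y) = 1 - y
      rw [Matrix.one_mul]
    · refine (hsmall t).trans ?_
      nlinarith
    · refine (hsmall (α n)).trans ?_
      nlinarith
  push Not at hk
  obtain ⟨θ, hθ1, hθ2⟩ := hQF k a t0 (fun x => (hrel2 x).trans (by nlinarith))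
  have hext : ∀ g, (ext J hJ θ g).1 * y = J * (θ g).1 * Jᴴ := by
    intro g
    rw [ext_coe, hJJ, Matrix.add_mul, Matrix.sub_mul, hyy, Matrix.one_mul, sub_self, add_zero,
      Matrix.mul_assoc, hJy]
  refine ⟨(ext J hJ θ).comp Φ, fun g => ?_, ?_, fun n hn => ?_⟩
  · show (ext J hJ θ (Φ g)).1 * (1 - y) = 1 - y
    rw [Matrix.mul_sub, Matrix.mul_one, hext, ext_coe, hJJ]
    abel
  · show fro (((ext J hJ θ (Φ (tt S))).1 - t.1) * y) ≤ ε * d
    rw [hΦt, Matrix.sub_mul, hext]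
    have h1 : J * (θ tH).1 * Jᴴ - t.1 * y =
        J * ((θ tH).1 - t0.1) * Jᴴ + J * (t0.1 - c) * Jᴴ + -(E * Jᴴ) := by
      have h2 : J * c * Jᴴ = y * t.1 * y := by
        show J * (Jᴴ * t.1 * J) * Jᴴ = _
        have : J * (Jᴴ * t.1 * J) * Jᴴ = (J * Jᴴ) * t.1 * (J * Jᴴ) := by
          simp only [Matrix.mul_assoc]
        rw [this, hJJ]
      have h3 : E * Jᴴ = t.1 * y - y * t.1 * y := by
        show (1 - y) * t.1 * J * Jᴴ = _
        rw [Matrix.mul_assoc _ J, hJJ, Matrix.sub_mul, Matrix.sub_mul, Matrix.one_mul]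
      rw [h3, Matrix.mul_sub, Matrix.mul_sub, Matrix.sub_mul, Matrix.sub_mul, h2]
      abel
    rw [h1]
    refine (fro_add3 _ _ _).trans ?_
    rw [fro_conj J hJ, fro_conj J hJ, fro_neg, fro_mul_right Jᴴ (by
      rw [conjTranspose_conjTranspose]; exact hJ)]
    have h4 := ht0.trans hfE
    have h5 : η * d ≤ ε / 12 * d := mul_le_mul_of_nonneg_right hη1 hd0
    have h6 : ε / 6 * k ≤ ε / 6 * d := mul_le_mul_of_nonneg_left hkd (by positivity)
    linarith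
  · show fro (((ext J hJ θ (Φ (inn S n))).1 - (α n).1) * y) ≤ ε * d
    have hnw := hmw2 n hn
    have h0 : f n ∈ S.W (-w) w := hFw _ ⟨n, rfl⟩
    rw [hΦn, Matrix.sub_mul, hext, hfold n hnw]
    have h1 : (α (f n)).1 * y = J * (a (f.rangeRestrict n)).1 * Jᴴ := by
      rw [ha]
      show _ = J * (Jᴴ * (α (f n)).1 * J) * Jᴴ
      have h2 : J * (Jᴴ * (α (f n)).1 * J) * Jᴴ = (J * Jᴴ) * ((α (f n)).1 * J) * Jᴴ := by
        simp only [Matrix.mul_assoc]
      rw [h2, hJJ, ← hcJ _ h0, Matrix.mul_assoc, hJJ]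
    have h3 : (of.comp f.rangeRestrict) n = of (f.rangeRestrict n) := rfl
    rw [h1, h3, ← Matrix.sub_mul, ← Matrix.mul_sub, fro_conj J hJ]
    have h6 : ε / 6 * k ≤ ε / 6 * d := mul_le_mul_of_nonneg_left hkd (by positivity)
    have h7 : 0 ≤ ε * d := by positivity
    have h8 := hθ2 (f.rangeRestrict n)
    linarith

end Pool.Agent.N395.AS
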