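import Pool.Agent.N395.AS.QF

set_option autoImplicit false

/-!
# Project AS: a unitary matrix near a contraction
-/

namespace Pool.Agent.N395.AS

open Finset Matrix Filter Topology WithLp
open Pool.Agent.H698R3.Amalg (fro fn fn_sq fn_nonneg uh_mul mul_uh colm colm_gram colm_isometry
  simdiag fro_mul_right mul_of_card)
open Pool.Agent.N139.AS

theorem fro_colm {X Y : Type} [Fintype X] [Fintype Y] (v : Y → EuclideanSpace ℂ X) :
    fro (colm v) = ∑ i, ‖v i‖ ^ 2 := by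
  unfold fro
  rw [Finset.sum_comm]
  refine Finset.sum_congr rfl fun i _ => ?_
  rw [EuclideanSpace.norm_sq_eq]
  rfl

theorem near_unitary {k : ℕ} {Y : Type} [Fintype Y] (c : Mt k) (E : Matrix Y (Fin k) ℂ)
    (h : cᴴ * c + Eᴴ * E = 1) : ∃ t0 : UU k, fro (t0.1 - c) ≤ fro E := by
  obtain ⟨W, p, hW⟩ := simdiag (fun _ : Unit => cᴴ * c) (fun _ => by
      show (cᴴ * c)ᴴ = cᴴ * c
      rw [conjTranspose_mul, conjTranspose_conjTranspose]) (fun _ _ => rfl)
  have hW1 : cᴴ * c * W.1 = W.1 * diagonal (fun x => p x ()) := hW ()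
  let B : Mt k := c * W.1
  let G : Matrix Y (Fin k) ℂ := E * W.1
  let w : Fin k → EuclideanSpace ℂ (Fin k) := fun i => toLp 2 (fun x => B x i)
  let g : Fin k → EuclideanSpace ℂ Y := fun i => toLp 2 (fun x => G x i)
  have hcol : colm w = B := by ext x z; rfl
  have hcolg : colm g = G := by ext x z; rfl
  have hBB : Bᴴ * B = diagonal (fun x => p x ()) := by
    show (c * W.1)ᴴ * (c * W.1) = _
    rw [conjTranspose_mul, Matrix.mul_assoc, ← Matrix.mul_assoc cᴴ, hW1, ← Matrix.mul_assoc,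
      uh_mul, Matrix.one_mul]
  have hBG : Bᴴ * B + Gᴴ * G = 1 := by
    show (c * W.1)ᴴ * (c * W.1) + (E * W.1)ᴴ * (E * W.1) = 1
    have h2 : (c * W.1)ᴴ * (c * W.1) + (E * W.1)ᴴ * (E * W.1) =
        (W.1)ᴴ * ((cᴴ * c + Eᴴ * E) * W.1) := by
      rw [conjTranspose_mul, conjTranspose_mul, Matrix.add_mul, Matrix.mul_add]
      simp only [Matrix.mul_assoc]
    rw [h2, h, Matrix.one_mul, uh_mul]
  have hort : ∀ i j, i ≠ j → inner ℂ (w i) (w j) = 0 := by
    intro i j hij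
    rw [← colm_gram, hcol, hBB, diagonal_apply_ne _ hij]
  have hnorm : ∀ i, ‖w i‖ ^ 2 + ‖g i‖ ^ 2 = 1 := by
    intro i
    have h3 : inner ℂ (w i) (w i) + inner ℂ (g i) (g i) = (1 : ℂ) := by
      rw [← colm_gram, ← colm_gram, hcol, hcolg, ← Matrix.add_apply, hBG, Matrix.one_apply_eq]
    rw [inner_self_eq_norm_sq_to_K, inner_self_eq_norm_sq_to_K] at h3
    have h4 : ((‖w i‖ ^ 2 + ‖g i‖ ^ 2 : ℝ) : ℂ) = ((1 : ℝ) : ℂ) := by
      rw [Complex.ofReal_add, Complex.ofReal_pow, Complex.ofReal_pow, Complex.ofReal_one]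
      exact h3
    exact Complex.ofReal_injective h4
  let v : Fin k → EuclideanSpace ℂ (Fin k) := fun i => ((‖w i‖⁻¹ : ℝ) : ℂ) • w i
  have hon : Orthonormal ℂ (({i | w i ≠ 0} : Set (Fin k)).domRestrict v) := by
    constructor
    · rintro ⟨i, hi⟩
      show ‖((‖w i‖⁻¹ : ℝ) : ℂ) • w i‖ = 1
      rw [norm_smul, Complex.norm_real, norm_inv, norm_norm,
        inv_mul_cancel₀ (norm_ne_zero_iff.mpr hi)]
    · rintro ⟨i, hi⟩ ⟨j, hj⟩ hij
      show inner ℂ (((‖w i‖⁻¹ : ℝ) : ℂ) • w i) (((‖w j‖⁻¹ : ℝ) : ℂ) • w j) = 0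
      rw [inner_smul_left, inner_smul_right, hort i j (fun h' => hij (Subtype.ext h')), mul_zero,
        mul_zero]
  obtain ⟨b, hb⟩ := hon.exists_orthonormalBasis_extension_of_card_eq
    (by rw [finrank_euclideanSpace])
  have hwb : ∀ i, w i = ((‖w i‖ : ℝ) : ℂ) • b i := by
    intro i
    by_cases hi : w i = 0
    · rw [hi]; simp
    · rw [hb i hi]
      show w i = ((‖w i‖ : ℝ) : ℂ) • (((‖w i‖⁻¹ : ℝ) : ℂ) • w i)
      rw [smul_smul, ← Complex.ofReal_mul, mul_inv_cancel₀ (norm_ne_zero_iff.mpr hi)]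
      simp
  have hbb : ∀ i, ‖b i - w i‖ ^ 2 ≤ ‖g i‖ ^ 2 := by
    intro i
    have h4 : b i - w i = (((1 - ‖w i‖ : ℝ)) : ℂ) • b i := by
      rw [Complex.ofReal_sub, Complex.ofReal_one, sub_smul, one_smul, ← hwb]
    have h5 : ‖b i‖ = 1 := b.orthonormal.1 i
    rw [h4, norm_smul, Complex.norm_real, h5, mul_one, Real.norm_eq_abs, sq_abs]
    have h6 := hnorm i
    have h7 := norm_nonneg (w i)
    have h8 : ‖w i‖ ≤ 1 := by nlinarith [sq_nonneg ‖g i‖]
    nlinarith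
  have hV : (colm (fun z => b z))ᴴ * colm (fun z => b z) = 1 :=
    colm_isometry (fun z => b z) b.orthonormal
  let V : UU k := ⟨colm (fun z => b z), Matrix.mem_unitaryGroup_iff'.mpr hV⟩
  refine ⟨V * W⁻¹, ?_⟩
  have h9 : ((V * W⁻¹ : UU k).1 - c) * W.1 = colm (fun i => b i - w i) := by
    have h10 : (V * W⁻¹ : UU k).1 * W.1 = V.1 := by
      have h11 : V * W⁻¹ * W = V := by group
      exact congrArg Subtype.val h11
    rw [Matrix.sub_mul, h10]
    ext x z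
    rfl
  rw [← fro_mul_right W.1 (mul_uh W) ((V * W⁻¹ : UU k).1 - c), h9, fro_colm,
    ← fro_mul_right W.1 (mul_uh W) E]
  show _ ≤ fro G
  rw [← hcolg, fro_colm]
  exact Finset.sum_le_sum fun i _ => hbb i

end Pool.Agent.N395.AS
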