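import Pool.Agent.N139.AS.Hnn
import Pool.Agent.N139.AS.Stm2
import Pool.Agent.H698R5.Comm

set_option autoImplicit false

/-!
# Project AS: quantitative stability of ascending HNN extensions of finite groups, polar parts
-/

namespace Pool.Agent.N395.AS

open Finset Matrix Filter Topology WithLp
open Pool.Agent.H698R3.Amalg (fro fn fn_sq fn_nonneg hsDist hsDist_eq hsDist_self hsDist_comm
  hsDist_tri hsDist_left hsDist_right uh_mul mul_uh HilbertSchmidtStable fro_neg fro_sub_comm)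
open Pool.Agent.N139.AS

theorem fro_le_of_hs {k : ℕ} (A B : Mt k) (ε : ℝ) (hε : 0 ≤ ε) (h : hsDist A B ≤ √ε) :
    fro (A - B) ≤ ε * k := by
  rcases Nat.eq_zero_or_pos k with rfl | hk
  · simp [fro]
  · have hk' : (0 : ℝ) < k := by exact_mod_cast hk
    rw [hsDist_eq, Fintype.card_fin, div_le_iff₀ (Real.sqrt_pos.mpr hk')] at h
    have h1 := fn_nonneg (A - B)
    rw [← fn_sq]
    calc fn (A - B) ^ 2 ≤ (√ε * √k) ^ 2 := pow_le_pow_left₀ h1 h 2
      _ = ε * k := by rw [mul_pow, Real.sq_sqrt hε, Real.sq_sqrt (Nat.cast_nonneg k)]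

theorem hs_le_of_fro {k : ℕ} (A B : Mt k) (δ : ℝ) (hδ : 0 ≤ δ) (h : fro (A - B) ≤ δ * k) :
    hsDist A B ≤ √δ := by
  rw [hsDist_eq, Fintype.card_fin]
  rcases Nat.eq_zero_or_pos k with rfl | hk
  · simp
  · have hk' : (0 : ℝ) < k := by exact_mod_cast hk
    rw [div_le_iff₀ (Real.sqrt_pos.mpr hk')]
    unfold fn
    rw [← Real.sqrt_mul hδ]
    exact Real.sqrt_le_sqrt h

theorem hsDist_nonneg {k : ℕ} (A B : Mt k) : 0 ≤ hsDist A B := Real.sqrt_nonneg _

/-- sequences of unitary matrices -/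
abbrev PP (k : ℕ → ℕ) : Type := ∀ n, UU (k n)

/-- sequences which tend to the identity -/
def KK (k : ℕ → ℕ) : Subgroup (PP k) where
  carrier := {u | Tendsto (fun n => hsDist (u n).1 1) atTop (𝓝 0)}
  one_mem' := by
    show Tendsto (fun n => hsDist ((1 : PP k) n).1 1) atTop (𝓝 0)
    have h : (fun n => hsDist ((1 : PP k) n).1 (1 : Mt (k n))) = fun _ => 0 := by
      funext n
      exact hsDist_self _
    rw [h]
    exact tendsto_const_nhds
  mul_mem' := by
    intro u v hu hv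
    have h : Tendsto (fun n => hsDist (u n).1 1 + hsDist (v n).1 1) atTop (𝓝 0) := by
      simpa using Tendsto.add hu hv
    refine squeeze_zero (fun n => hsDist_nonneg _ _) (fun n => ?_) h
    show hsDist ((u n).1 * (v n).1) 1 ≤ _
    have h1 := hsDist_tri ((u n).1 * (v n).1) ((u n).1 * 1) 1
    rw [hsDist_left, Matrix.mul_one] at h1
    linarith
  inv_mem' := by
    intro u hu
    have h : ∀ n, hsDist ((u⁻¹) n).1 1 = hsDist (u n).1 1 := by
      intro n
      have h1 := hsDist_left (u n) ((u n)⁻¹).1 1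
      have h2 : (u n).1 * ((u n)⁻¹).1 = 1 := mul_uh (u n)
      rw [h2, Matrix.mul_one] at h1
      rw [hsDist_comm (u n).1, h1]
      rfl
    show Tendsto (fun n => hsDist ((u⁻¹) n).1 1) atTop (𝓝 0)
    simp_rw [h]
    exact hu

theorem mem_KK {k : ℕ → ℕ} (u : PP k) :
    u ∈ KK k ↔ Tendsto (fun n => hsDist (u n).1 1) atTop (𝓝 0) := Iff.rfl

instance (k : ℕ → ℕ) : (KK k).Normal := by
  refine ⟨fun u hu g => ?_⟩
  rw [mem_KK] at hu ⊢
  refine hu.congr fun n => ?_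
  have h1 := hsDist_left (g n) ((u n).1 * ((g n)⁻¹).1) (1 * ((g n)⁻¹).1)
  rw [hsDist_right (g n)⁻¹] at h1
  rw [← h1, Matrix.one_mul]
  have h2 : (g n).1 * ((g n)⁻¹).1 = 1 := mul_uh (g n)
  rw [h2, ← Matrix.mul_assoc]
  rfl

/-- two sequences with the same class are close -/
theorem close_of_mk {k : ℕ → ℕ} (u v : PP k)
    (h : (QuotientGroup.mk u : PP k ⧸ KK k) = QuotientGroup.mk v) :
    Tendsto (fun n => hsDist (u n).1 (v n).1) atTop (𝓝 0) := by
  rw [QuotientGroup.eq, mem_KK] at h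
  refine h.congr fun n => ?_
  have h1 := hsDist_left (u n) ((u⁻¹ * v) n).1 1
  have h2 : (u n).1 * ((u⁻¹ * v) n).1 = (v n).1 := by
    have h3 : u n * (u⁻¹ * v) n = v n := by
      show u n * ((u n)⁻¹ * v n) = v n
      group
    exact congrArg Subtype.val h3
  rw [h2, Matrix.mul_one] at h1
  rw [← h1, hsDist_comm]

theorem mk_of_close {k : ℕ → ℕ} (u v : PP k)
    (h : Tendsto (fun n => hsDist (u n).1 (v n).1) atTop (𝓝 0)) :
    (QuotientGroup.mk u : PP k ⧸ KK k) = QuotientGroup.mk v := by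
  rw [QuotientGroup.eq, mem_KK]
  refine h.congr fun n => ?_
  have h1 := hsDist_left (u n) ((u⁻¹ * v) n).1 1
  have h2 : (u n).1 * ((u⁻¹ * v) n).1 = (v n).1 := by
    have h3 : u n * (u⁻¹ * v) n = v n := by
      show u n * ((u n)⁻¹ * v n) = v n
      group
    exact congrArg Subtype.val h3
  rw [h2, Matrix.mul_one] at h1
  rw [← h1, hsDist_comm]

/-- quantitative stability -/
theorem QF (F : Type) [Group F] [Finite F] (τ : F → F) (Γ : Type) [Group Γ] (of : F →* Γ) (tH : Γ)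
    (huniv : ∀ (H : Type) [Group H] (a : F →* H) (s : H), (∀ x, s * a x = a (τ x) * s) →
      ∃ L : Γ →* H, L tH = s ∧ ∀ x, L (of x) = a x)
    (hst : HilbertSchmidtStable Γ) (ε : ℝ) (hε : 0 < ε) :
    ∃ δ : ℝ, 0 < δ ∧ ∀ (k : ℕ) (a : F →* UU k) (t0 : UU k),
      (∀ x, fro (t0.1 * (a x).1 - (a (τ x)).1 * t0.1) ≤ δ * k) →
      ∃ θ : Γ →* UU k, fro ((θ tH).1 - t0.1) ≤ ε * k ∧
        ∀ x, fro ((θ (of x)).1 - (a x).1) ≤ ε * k := by
  by_contra hcon
  push Not at hcon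
  have hcon2 : ∀ n : ℕ, ∃ (k : ℕ) (a : F →* UU k) (t0 : UU k),
      (∀ x, fro (t0.1 * (a x).1 - (a (τ x)).1 * t0.1) ≤ 1 / ((n : ℝ) + 1) * k) ∧
      ∀ θ : Γ →* UU k, fro ((θ tH).1 - t0.1) ≤ ε * k →
        ∃ x, ε * k < fro ((θ (of x)).1 - (a x).1) :=
    fun n => hcon (1 / ((n : ℝ) + 1)) (by positivity)
  choose k a t0 h1 h2 using hcon2
  let s : PP k := fun n => t0 n
  let A : F →* PP k := MonoidHom.pi a
  have hrel : ∀ x, (QuotientGroup.mk s : PP k ⧸ KK k) * QuotientGroup.mk (A x) =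
      QuotientGroup.mk (A (τ x)) * QuotientGroup.mk s := by
    intro x
    rw [← QuotientGroup.mk_mul, ← QuotientGroup.mk_mul]
    refine mk_of_close _ _ ?_
    have h3 : Tendsto (fun n : ℕ => √(1 / ((n : ℝ) + 1))) atTop (𝓝 0) := by
      have h4 := tendsto_one_div_add_atTop_nhds_zero_nat (𝕜 := ℝ)
      have h5 := (Real.continuous_sqrt.tendsto 0).comp h4
      rw [Real.sqrt_zero] at h5
      exact h5
    refine squeeze_zero (fun n => hsDist_nonneg _ _) (fun n => ?_) h3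
    exact hs_le_of_fro _ _ _ (by positivity) (h1 n x)
  obtain ⟨L, hL1, hL2⟩ := huniv (PP k ⧸ KK k) ((QuotientGroup.mk' (KK k)).comp A)
    (QuotientGroup.mk s) hrel
  let φ : ∀ n, Γ → UU (k n) := fun n g => (Quotient.out (L g)) n
  have hmk : ∀ g, (QuotientGroup.mk (Quotient.out (L g)) : PP k ⧸ KK k) = L g :=
    fun g => QuotientGroup.out_eq' _
  obtain ⟨ψ, hψ⟩ := hst (fun n => Fin (k n)) φ (by
    intro g h
    refine close_of_mk (Quotient.out (L g) * Quotient.out (L h)) (Quotient.out (L (g * h))) ?_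
    rw [QuotientGroup.mk_mul, hmk, hmk, hmk, map_mul])
  have hT : Tendsto (fun n => hsDist (ψ n tH).1 (t0 n).1) atTop (𝓝 0) := by
    have h3 := close_of_mk (Quotient.out (L tH)) s (by rw [hmk, hL1])
    have h4 : Tendsto (fun n => hsDist (φ n tH).1 (ψ n tH).1 +
      hsDist ((Quotient.out (L tH)) n).1 (s n).1) atTop (𝓝 0) := by
      simpa using (hψ tH).add h3
    refine squeeze_zero (fun n => hsDist_nonneg _ _) (fun n => ?_) h4
    have h5 := hsDist_tri (ψ n tH).1 (φ n tH).1 (t0 n).1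
    rw [hsDist_comm (ψ n tH).1 (φ n tH).1] at h5
    exact h5
  have hX : ∀ x, Tendsto (fun n => hsDist (ψ n (of x)).1 (a n x).1) atTop (𝓝 0) := by
    intro x
    have h3 := close_of_mk (Quotient.out (L (of x))) (A x) (by rw [hmk, hL2]; rfl)
    have h4 : Tendsto (fun n => hsDist (φ n (of x)).1 (ψ n (of x)).1 +
      hsDist ((Quotient.out (L (of x))) n).1 ((A x) n).1) atTop (𝓝 0) := by
      simpa using (hψ (of x)).add h3
    refine squeeze_zero (fun n => hsDist_nonneg _ _) (fun n => ?_) h4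
    have h5 := hsDist_tri (ψ n (of x)).1 (φ n (of x)).1 (a n x).1
    rw [hsDist_comm (ψ n (of x)).1 (φ n (of x)).1] at h5
    exact h5
  have hs : 0 < √ε := Real.sqrt_pos.mpr hε
  have e1 : ∀ᶠ n in atTop, hsDist (ψ n tH).1 (t0 n).1 ≤ √ε :=
    (hT.eventually (ge_mem_nhds hs))
  have e2 : ∀ᶠ n in atTop, ∀ x, hsDist (ψ n (of x)).1 (a n x).1 ≤ √ε :=
    eventually_all.mpr fun x => (hX x).eventually (ge_mem_nhds hs)
  obtain ⟨n, hn1, hn2⟩ := (e1.and e2).exists
  obtain ⟨x, hx⟩ := h2 n (ψ n) (fro_le_of_hs _ _ _ hε.le hn1)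
  exact absurd (fro_le_of_hs _ _ _ hε.le (hn2 x)) (not_le.mpr hx)

end Pool.Agent.N395.AS
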